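import Mathlib
import Pool.Agent.R718.SU11Glob

/-!
# The Sobolev pseudometric on classes of norms is not a metric

`G = SU(1,1)`, `V` = the `K`-finite vectors of a limit of discrete series (on the finitely supported
sequences, `e_n ↔ z^n`, with `G` acting by `f ↦ (cz+d)⁻¹ f((az+b)/(cz+d))`), the weight
`w(g) = (|a| + |b|)²`, the unitary `ℓ²` norm `p` and the norm
`q(f)² = ∑ (1 + log(1 + (n+1)²)) |f_n|²`. The `G`-continuity of `q` is proved by (real)
interpolation between `ℓ²` and the first Sobolev space.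
-/

set_option autoImplicit false

namespace Pool.Agent.Results.MP_a304db_al.LogWeight

open Pool.Agent.R718.SU11

/-- There are a Harish-Chandra module `M` for `G = SU(1,1)`, a weight `w` on `G` and two norms
`p, q ∈ Norm(V, w)` with `d([p], [q]) = 0` although `[p] ≠ [q]`. -/
theorem result : ∃ (M : HCModule (ℕ →₀ ℂ)) (w : G → ℝ) (p q : (ℕ →₀ ℂ) → ℝ),
    IsWeight w ∧ InNorm M w p ∧ InNorm M w q ∧
      sobDist M p q = 0 ∧ ¬ (Dominated p q ∧ Dominated q p) := by
  refine ⟨M, wt, fun f => ‖ιW (fun _ => 1) f‖, fun f => ‖ιW W0 f‖, isWeight_wt, inNorm good_one,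
    inNorm good_W0, ?_, fun h => not_dominated h.2⟩
  unfold sobDist
  rw [dTo_pq, dTo_qp, max_self]

end Pool.Agent.Results.MP_a304db_al.LogWeight
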